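import Pool.Agent.V11187.BT.Thm
import Pool.Agent.Run7.h161.CG.SlowC

/-!
# The Bass trace conjecture for contracting groups

A contracting group is a group with a faithful contracting recursion over a finite alphabet, for
instance the iterated monodromy group of an expanding covering, or a group generated by a bounded
automaton. Contracting groups are not known to be amenable, and the Farrell–Jones conjecture is not
known for them.

* In a contracting group no element of infinite order is conjugate to a proper power.
* The Bass trace conjecture over every commutative domain holds for every group in which the elements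
  of infinite order are detected by homomorphisms of the finitely generated subgroups to contracting
  groups, in particular for all contracting groups and their subgroups.
* It goes up from `H ⧸ K` to `H` if for all `h` in `H` of infinite order and all `k` in `K` the elements `h`
  and `h k` are conjugate, or one of them is detected.

Proof of the first part. Suppose that `h g h⁻¹ = g ^ n` with `n ≥ 2`. By Horner's scheme the powers
`g ^ K`, `K < n ^ q`, are products of `(n + 2) q` elements of `S = {1, g, h, h⁻¹}`. After `l + j k` steps of
the recursion the sections of all products of `2 ^ j` elements of `S` are in the nucleus `M`, so at this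
level these products have at most `(|X| + 1) ^ (l + j k) |M|` different restrictions to the subtree below a
given vertex. For large `j` there are more powers of `g` among the products, so that a positive power of `g`
acts trivially below the vertex. As this holds for all vertices of the level, `g` has finite order. The
other parts follow by the theorem of Bass on the Frobenius map, in the form given to it in the starting
library.
-/

set_option autoImplicit false

namespace Pool.Agent.Results.MP_7903c7_al.ContractingGroups

open Run7.h161.CG (ContractingGroup)

universe u w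

/-- The Bass trace conjecture for the domain `R` and the group `G`. -/
def BassFor (R : Type u) [CommRing R] [IsDomain R] (G : Type w) [Group G] : Prop :=
  ∀ (n : ℕ) (A : Matrix (Fin n) (Fin n) (MonoidAlgebra R G)), A * A = A →
    ∀ g : G, ¬ IsUnit ((orderOf g : ℕ) : R) →
      ∑ i : Fin n, ∑ᶠ (h : G) (_ : IsConj h g), (A i i).coeff h = 0

/-- The element `h` of `H` is detected: every finitely generated subgroup `H0` that contains `h` has a
homomorphism `s` to a contracting group such that `s h` has infinite order. -/
def Detected (H : Type w) [Group H] (h : H) : Prop :=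
  ∀ (H0 : Subgroup H) (_ : H0.FG) (hh : h ∈ H0), ∃ (L : Type) (_ : Group L) (s : H0 →* L),
    ContractingGroup L ∧ ¬ IsOfFinOrder (s ⟨h, hh⟩)

theorem noPow (L : Type) [Group L] (hL : ContractingGroup L) (g : L) (hg : ¬ IsOfFinOrder g)
    (n : ℕ) (hn : 2 ≤ n) : ¬ IsConj g (g ^ n) := by
  obtain ⟨Ω, _, _, hs, hf⟩ := Run7.h161.CG.slow_of_contracting L hL
  refine Run7.h161.CG.noPow_of_slow hs hf g (fun j hj h => hg ?_) n hn
  exact isOfFinOrder_iff_pow_eq_one.2 ⟨j, hj, h⟩

theorem det (H : Type w) [Group H] (h : H) (hd : Detected H h) :
    Pool.Agent.V11187.BT.Det H h := by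
  intro H0 hH0 hh
  obtain ⟨L, _, s, hL, hs⟩ := hd H0 hH0 hh
  refine ⟨L, inferInstance, s, fun x hx m hm => noPow L hL x (fun h1 => ?_) m hm,
    (Pool.Agent.V11187.BT.infOrd_iff _).2 hs⟩
  exact (Pool.Agent.V11187.BT.infOrd_iff _).1 hx h1

theorem result (R : Type u) [CommRing R] [IsDomain R] :
    (∀ (L : Type) [Group L], ContractingGroup L → ∀ g : L, ¬ IsOfFinOrder g → ∀ n : ℕ, 2 ≤ n →
      ¬ IsConj g (g ^ n)) ∧
    (∀ (H : Type w) [Group H], (∀ h : H, ¬ IsOfFinOrder h → Detected H h) → BassFor R H) ∧
    (∀ (H : Type w) [Group H] (K : Subgroup H) [K.Normal],
      (∀ h k : H, k ∈ K → ¬ IsOfFinOrder h →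
        IsConj h (h * k) ∨ Detected H h ∨ Detected H (h * k)) →
      BassFor R (H ⧸ K) → BassFor R H) := by
  refine ⟨noPow, ?_, ?_⟩
  · intro H _ hH
    exact Pool.Agent.V11187.BT.bass_detect R H fun h hh =>
      det H h (hH h ((Pool.Agent.V11187.BT.infOrd_iff h).1 hh))
  · intro H _ K _ hK hQ
    apply Pool.Agent.V11187.BT.bass_ext R H K _ hQ
    intro h k hk hh h1 h2
    rcases hK h k hk ((Pool.Agent.V11187.BT.infOrd_iff h).1 hh) with h3 | h3 | h3
    · exact h3
    · exact absurd (det H _ h3) h1
    · exact absurd (det H _ h3) h2

end Pool.Agent.Results.MP_7903c7_al.ContractingGroups
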