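import Pool.Agent.V11187.BT.Thm
import Pool.Agent.Run7.h161.CG.Slow

/-!
# The Bass trace conjecture for full groups of actions of groups of subexponential growth

Let `Γ` be a group whose finitely generated subgroups have subexponential growth, for instance an abelian
group, a nilpotent group or a group of Grigorchuk, and let `Γ` act by continuous maps on a compact space
`Ω`. A *piecewise group* is a group `F` acting faithfully on such an `Ω` so that every element of `F`
coincides with an element of `Γ` near every point of `Ω`, for instance the topological full group of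
the action, or any subgroup of it. These groups are large: they include finitely generated infinite
simple groups, and the full groups of actions of `ℤ²` on the Cantor set may contain free groups and are not
amenable in general.

* In a piecewise group no element of infinite order is conjugate to a proper power.
* The Bass trace conjecture over every commutative domain holds for every group in which the elements
  of infinite order are detected by homomorphisms of the finitely generated subgroups to piecewise
  groups, in particular for all piecewise groups.
* It goes up from `H ⧸ K` to `H` if for all `h` in `H` of infinite order and all `k` in `K` the elements `h`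
  and `h k` are conjugate, or one of them is detected.

Proof of the first part. Suppose that `h g h⁻¹ = g ^ n` with `n ≥ 2`. By Horner's scheme the powers
`g ^ K`, `K < n ^ q`, are products of `(n + 2) q` elements of `S = {1, g, h, h⁻¹}`. By compactness there is
a finite set `T ⊆ Γ` such that for every `m` all products of `m` elements of `S` coincide with products of
`m` elements of `T` on the sets of a finite open cover (which depends on `m`). For suitable `m` there are
more powers of `g` among them than elements of `T ^ m`, so that a positive power of `g` acts trivially on a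
given set of the cover. So some positive power of `g` acts trivially on `Ω`. The other parts follow by the
theorem of Bass on the Frobenius map, in the form given to it in the starting library.
-/

set_option autoImplicit false

namespace Pool.Agent.Results.MP_7903c7_al.FullGroups

open scoped Pointwise

universe u w

/-- The Bass trace conjecture for the domain `R` and the group `G`. -/
def BassFor (R : Type u) [CommRing R] [IsDomain R] (G : Type w) [Group G] : Prop :=
  ∀ (n : ℕ) (A : Matrix (Fin n) (Fin n) (MonoidAlgebra R G)), A * A = A →
    ∀ g : G, ¬ IsUnit ((orderOf g : ℕ) : R) →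
      ∑ i : Fin n, ∑ᶠ (h : G) (_ : IsConj h g), (A i i).coeff h = 0

/-- The finitely generated subgroups of `Γ` have subexponential growth: for every finite subset `S` and
every `c > 1` there are arbitrarily large `m` such that there are fewer than `c ^ m` products of `m`
elements of `S`. -/
def SubexpGrowth (Γ : Type) [Group Γ] : Prop :=
  ∀ S : Set Γ, S.Finite → ∀ c : ℝ, 1 < c → ∀ k : ℕ, ∃ m ≥ k, ((S ^ m).ncard : ℝ) < c ^ m

/-- `F` acts faithfully on a compact space `Ω`, on which a group `Γ` of subexponential growth acts by
continuous maps, and near every point of `Ω` every element of `F` coincides with an element of `Γ`. -/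
def PiecewiseGroup (F : Type) [Group F] : Prop :=
  ∃ (Ω : Type) (_ : TopologicalSpace Ω) (_ : MulAction F Ω) (Γ : Type) (_ : Group Γ)
    (_ : MulAction Γ Ω), CompactSpace Ω ∧ SubexpGrowth Γ ∧
    (∀ γ : Γ, Continuous fun x : Ω => γ • x) ∧
    (∀ (g : F) (x : Ω), ∃ γ : Γ, ∀ᶠ y in nhds x, g • y = γ • y) ∧
    ∀ g : F, (∀ x : Ω, g • x = x) → g = 1

/-- The element `h` of `H` is detected: every finitely generated subgroup `H0` that contains `h` has a
homomorphism `s` to a piecewise group such that `s h` has infinite order. -/
def Detected (H : Type w) [Group H] (h : H) : Prop :=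
  ∀ (H0 : Subgroup H) (_ : H0.FG) (hh : h ∈ H0), ∃ (L : Type) (_ : Group L) (s : H0 →* L),
    PiecewiseGroup L ∧ ¬ IsOfFinOrder (s ⟨h, hh⟩)

theorem noPow (L : Type) [Group L] (hL : PiecewiseGroup L) (g : L) (hg : ¬ IsOfFinOrder g)
    (n : ℕ) (hn : 2 ≤ n) : ¬ IsConj g (g ^ n) := by
  obtain ⟨Ω, _, _, Γ, _, _, hΩ, hΓ, hcont, hloc, hf⟩ := hL
  have hs : Run7.h161.CG.SlowAction L Ω := Run7.h161.CG.slow_full L Γ Ω hcont hloc
    (Run7.h161.CG.slow_of_growth Γ Ω hΓ)
  refine Run7.h161.CG.noPow_of_slow hs hf g (fun j hj h => hg ?_) n hn
  exact isOfFinOrder_iff_pow_eq_one.2 ⟨j, hj, h⟩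

theorem det (H : Type w) [Group H] (h : H) (hd : Detected H h) :
    Pool.Agent.V11187.BT.Det H h := by
  intro H0 hH0 hh
  obtain ⟨L, _, s, hL, hs⟩ := hd H0 hH0 hh
  refine ⟨L, inferInstance, s, fun x hx m hm => noPow L hL x (fun h1 => ?_) m hm,
    (Pool.Agent.V11187.BT.infOrd_iff _).2 hs⟩
  exact (Pool.Agent.V11187.BT.infOrd_iff _).1 hx h1

theorem result (R : Type u) [CommRing R] [IsDomain R] :
    (∀ (L : Type) [Group L], PiecewiseGroup L → ∀ g : L, ¬ IsOfFinOrder g → ∀ n : ℕ, 2 ≤ n →
      ¬ IsConj g (g ^ n)) ∧
    (∀ (H : Type w) [Group H], (∀ h : H, ¬ IsOfFinOrder h → Detected H h) → BassFor R H) ∧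
    (∀ (H : Type w) [Group H] (K : Subgroup H) [K.Normal],
      (∀ h k : H, k ∈ K → ¬ IsOfFinOrder h →
        IsConj h (h * k) ∨ Detected H h ∨ Detected H (h * k)) →
      BassFor R (H ⧸ K) → BassFor R H) := by
  refine ⟨noPow, ?_, ?_⟩
  · intro H _ hH
    exact Pool.Agent.V11187.BT.bass_detect R H fun h hh =>
      det H h (hH h ((Pool.Agent.V11187.BT.infOrd_iff h).1 hh))
  · intro H _ K _ hK hQ
    apply Pool.Agent.V11187.BT.bass_ext R H K _ hQ
    intro h k hk hh h1 h2
    rcases hK h k hk ((Pool.Agent.V11187.BT.infOrd_iff h).1 hh) with h3 | h3 | h3
    · exact h3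
    · exact absurd (det H _ h3) h1
    · exact absurd (det H _ h3) h2

end Pool.Agent.Results.MP_7903c7_al.FullGroups
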