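import Pool.Agent.Run7.h78.NP.Final

/-!
# The Bass trace conjecture for verbal quotients `F / W(R)`, `R` an arbitrary normal subgroup

Let `W` be a set of words such that the laws `w = 1` hold in some nontrivial group and such that in
the relatively free groups of finite rank no element of infinite order is conjugate to a proper power
(`Adm W`). Examples: the words of the lower central series, all words if the relatively free groups of
finite rank are torsion groups (powers, the laws of a finite group).

Let `R` be **any** normal subgroup of a free group `G`, or let `G` act on a tree such that the normal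
subgroup `R` acts freely (without inversions), and the elements of infinite order of `G / R` which come
from the stabilizers of the vertices are not conjugate to proper powers (`VPair G R`).

* No element of infinite order of `G / W(R)`, and of the groups `G / [W(R), G, ..., G]`, is conjugate
to a proper power. Nothing else is assumed about `G / R`.
* Hence the Bass trace conjecture over all domains holds for these groups, for all groups whose
elements of infinite order are detected by such groups, and for many extensions by them.

Outline of the proof. The paths of the tree give an embedding of `G / W(R)` into the semidirect product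
of the relatively free group on the set `E` of orbits of `R` on oriented edges and of `G / R` (for free
groups this is Shmel'kin's embedding). If an element of infinite order was conjugate to its `m`-th
power, then a power of it would permute `E` freely, and the sums of the exponents over the orbits, with
values in `ZMod p`, would give a function with finite support which is invariant under the conjugating
element up to the factor `m`; a height function on the orbits gives a contradiction.
-/

set_option autoImplicit false

namespace Pool.Agent.Results.MP_7903c7_al.VerbalRelationGroups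

open Pool.Agent.Y75.BF (InfOrd)
open Pool.Agent.Run7.h78.NP Pool.Agent.Run7.h78.VB

universe u w

/-- The Bass trace conjecture for the domain `A` and the group `G`. -/
def BassFor (A : Type u) [CommRing A] [IsDomain A] (G : Type w) [Group G] : Prop :=
  ∀ (n : ℕ) (M : Matrix (Fin n) (Fin n) (MonoidAlgebra A G)), M * M = M →
    ∀ g : G, ¬ IsUnit ((orderOf g : ℕ) : A) →
      ∑ i : Fin n, ∑ᶠ (h : G) (_ : IsConj h g), (M i i).coeff h = 0

theorem result (A : Type u) [CommRing A] [IsDomain A] :
    -- conjugacy to proper powers
    (∀ (W : Set (FreeGroup ℕ)), Adm W → ∀ (G : Type) [Group G] (R : Subgroup G) [R.Normal], VPair G R →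
      ∀ (k : ℕ) (g : G ⧸ itc ((verbal W R).map R.subtype) k), InfOrd g →
        ∀ m : ℕ, 2 ≤ m → ¬ IsConj g (g ^ m)) ∧
    -- the conjecture for extensions
    (∀ (H : Type w) [Group H] (K : Subgroup H) [K.Normal],
      (∀ h k : H, k ∈ K → InfOrd h → IsConj h (h * k) ∨ DetV H h ∨ DetV H (h * k)) →
      BassFor A (H ⧸ K) → BassFor A H) ∧
    -- the conjecture for detected groups
    (∀ (H : Type w) [Group H], (∀ h : H, InfOrd h → DetV H h) → BassFor A H) ∧
    -- the conjecture for the groups themselves
    (∀ (W : Set (FreeGroup ℕ)), Adm W → ∀ (G : Type) [Group G] (R : Subgroup G) [R.Normal], VPair G R →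
      ∀ k : ℕ, BassFor A (G ⧸ itc ((verbal W R).map R.subtype) k)) ∧
    -- examples of admissible sets of words
    (∀ c : ℕ, 1 ≤ c → Adm {w | w ∈ (⊤ : Subgroup (FreeGroup ℕ)).lowerCentralSeries c}) ∧
    (∀ n : ℕ, 2 ≤ n → Adm {FreeGroup.of 0 ^ n}) ∧
    -- the lower central series and powers of a normal subgroup of a free group
    (∀ (X : Type) (R : Subgroup (FreeGroup X)) [R.Normal] (c k : ℕ), 1 ≤ c →
      BassFor A (FreeGroup X ⧸ itc (R.lowerCentralSeries c) k)) ∧
    (∀ (X : Type) (R : Subgroup (FreeGroup X)) [R.Normal] (n k : ℕ), 2 ≤ n →
      ∀ (M : Subgroup (FreeGroup X)) [M.Normal],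
        M = itc (Subgroup.closure {x | ∃ r ∈ R, x = r ^ n}) k → BassFor A (FreeGroup X ⧸ M)) := by
  refine ⟨?_, ?_, ?_, ?_, adm_lcs, adm_pow, ?_, ?_⟩
  · intro W hW G _ R _ hR k g hg m hm
    exact np_itc _ (np_rel W hW G R hR) k g hg m hm
  · intro H _ K _ hK hQ
    apply Pool.Agent.V11187.BT.bass_ext A H K _ hQ
    intro h k hk hh h1 h2
    rcases hK h k hk hh with h3 | h3 | h3
    · exact h3
    · exact absurd h3.det h1
    · exact absurd h3.det h2
  · intro H _ hH
    exact Pool.Agent.V11187.BT.bass_detect A H fun h hh => (hH h hh).det
  · intro W hW G _ R _ hR k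
    exact bass_rel A W hW G R hR k _ rfl
  · intro X R _ c k hc
    refine bass_rel A (lcsW c) (adm_lcs c hc) (FreeGroup X) R (Or.inl ⟨X, ⟨MulEquiv.refl _⟩⟩) k _
      (itc_congr ?_ k)
    rw [verbal_lcs, Subgroup.top_subtype_lowerCentralSeries]
  · intro X R _ n k hn M _ hM
    refine bass_rel A (powW n) (adm_pow n hn) (FreeGroup X) R (Or.inl ⟨X, ⟨MulEquiv.refl _⟩⟩) k M
      (hM.trans (itc_congr ?_ k))
    rw [verbal_pow, MonoidHom.map_closure]
    congr 1
    ext x
    constructor
    · rintro ⟨r, hr, rfl⟩
      exact ⟨⟨r, hr⟩ ^ n, ⟨⟨r, hr⟩, rfl⟩, rfl⟩
    · rintro ⟨_, ⟨r, rfl⟩, rfl⟩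
      exact ⟨r, r.2, rfl⟩

end Pool.Agent.Results.MP_7903c7_al.VerbalRelationGroups
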